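import Mathlib

/-!
An independent set: if `B i`, `i < n`, have at most `b` elements each, then `V` contains a set
`I` with at most one element in each `B i` and `|V|^2 ≤ 2 |I| (|V| + 2 n b^2)`.
-/

open Finset

namespace Pool.Agent.Helper29.AC

theorem exists_indep {α : Type*} [DecidableEq α] (V : Finset α) {n b : ℕ} (B : Fin n → Finset α)
    (hB : ∀ i, (B i).card ≤ b) :
    ∃ I ⊆ V, (∀ i, (I ∩ B i).card ≤ 1) ∧
      V.card ^ 2 ≤ 2 * (I.card * (V.card + 2 * (n * b ^ 2))) := by
  classical
  -- multiplicity
  set m : α → ℕ := fun a => (univ.filter fun i => a ∈ B i).card with hm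
  have hsum : ∀ W : Finset α, ∑ a ∈ W, m a ≤ n * b := by
    intro W
    have h := Finset.sum_card_bipartiteAbove_eq_sum_card_bipartiteBelow
      (s := W) (t := (univ : Finset (Fin n))) (fun a i => a ∈ B i)
    have h1 : ∑ a ∈ W, m a = ∑ i : Fin n, (W.filter fun a => a ∈ B i).card := h
    rw [h1]
    calc ∑ i : Fin n, (W.filter fun a => a ∈ B i).card ≤ ∑ _i : Fin n, b := by
          apply Finset.sum_le_sum
          intro i _
          refine (Finset.card_le_card ?_).trans (hB i)
          intro a ha
          exact (Finset.mem_filter.1 ha).2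
      _ = n * b := by simp
  set V' := V.filter fun a => m a * V.card ≤ 2 * (n * b) with hV'
  have hV'V : V' ⊆ V := Finset.filter_subset _ _
  have hhalf : V.card ≤ 2 * V'.card := by
    set W := V.filter fun a => ¬ (m a * V.card ≤ 2 * (n * b)) with hW
    have hsplit : V'.card + W.card = V.card := Finset.card_filter_add_card_filter_not _
    by_contra hcon
    push Not at hcon
    have h1 : V.card < 2 * W.card := by omega
    have h2 : W.card * (2 * (n * b) + 1) ≤ V.card * (n * b) := by
      calc W.card * (2 * (n * b) + 1) = ∑ _a ∈ W, (2 * (n * b) + 1) := by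
            rw [Finset.sum_const, smul_eq_mul]
        _ ≤ ∑ a ∈ W, m a * V.card := by
            apply Finset.sum_le_sum
            intro a ha
            rw [hW, Finset.mem_filter] at ha
            omega
        _ = V.card * ∑ a ∈ W, m a := by rw [← Finset.sum_mul, mul_comm]
        _ ≤ V.card * (n * b) := Nat.mul_le_mul_left _ (hsum W)
    have h3 : 0 < W.card := by omega
    have h4 : V.card * (n * b) ≤ (2 * W.card) * (n * b) := Nat.mul_le_mul_right _ h1.le
    have h5 : W.card * (2 * (n * b) + 1) = (2 * W.card) * (n * b) + W.card := by ring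
    omega
  -- an independent set of largest size in V'
  obtain ⟨I, hI, hmax⟩ := Finset.exists_max_image
    (V'.powerset.filter fun I => ∀ i, (I ∩ B i).card ≤ 1) Finset.card
    ⟨∅, by simp⟩
  rw [Finset.mem_filter, Finset.mem_powerset] at hI
  obtain ⟨hIV, hIB⟩ := hI
  refine ⟨I, hIV.trans hV'V, hIB, ?_⟩
  have hcover : V' ⊆ I ∪ I.biUnion fun a => (univ.filter fun i => a ∈ B i).biUnion B := by
    intro a ha
    by_cases haI : a ∈ I
    · exact Finset.mem_union_left _ haI
    apply Finset.mem_union_right
    by_contra hcon
    have h1 : insert a I ∈ V'.powerset.filter fun I => ∀ i, (I ∩ B i).card ≤ 1 := by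
      rw [Finset.mem_filter, Finset.mem_powerset]
      refine ⟨Finset.insert_subset ha hIV, ?_⟩
      intro i
      by_cases hai : a ∈ B i
      · have h2 : I ∩ B i = ∅ := by
          by_contra hne
          obtain ⟨c, hc⟩ := Finset.nonempty_iff_ne_empty.2 hne
          rw [Finset.mem_inter] at hc
          apply hcon
          rw [Finset.mem_biUnion]
          refine ⟨c, hc.1, ?_⟩
          rw [Finset.mem_biUnion]
          exact ⟨i, Finset.mem_filter.2 ⟨Finset.mem_univ _, hc.2⟩, hai⟩
        rw [Finset.insert_inter_of_mem hai, h2]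
        simp
      · rw [Finset.insert_inter_of_notMem hai]
        exact hIB i
    have h2 := hmax _ h1
    rw [Finset.card_insert_of_notMem haI] at h2
    omega
  have hcard : V'.card ≤ I.card + ∑ a ∈ I, m a * b := by
    refine (Finset.card_le_card hcover).trans ((Finset.card_union_le _ _).trans ?_)
    apply Nat.add_le_add_left
    refine Finset.card_biUnion_le.trans (Finset.sum_le_sum fun a _ => ?_)
    refine Finset.card_biUnion_le.trans ?_
    have := Finset.sum_le_card_nsmul (univ.filter fun i => a ∈ B i) (fun i => (B i).card) b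
      (fun i _ => hB i)
    rwa [smul_eq_mul] at this
  have hfin : V'.card * V.card ≤ I.card * (V.card + 2 * (n * b ^ 2)) := by
    calc V'.card * V.card ≤ (I.card + ∑ a ∈ I, m a * b) * V.card :=
          Nat.mul_le_mul_right _ hcard
      _ = I.card * V.card + ∑ a ∈ I, (m a * V.card) * b := by
          rw [add_mul, Finset.sum_mul]
          congr 1
          apply Finset.sum_congr rfl
          intro a _
          ring
      _ ≤ I.card * V.card + ∑ _a ∈ I, (2 * (n * b)) * b := by
          apply Nat.add_le_add_left
          apply Finset.sum_le_sum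
          intro a ha
          exact Nat.mul_le_mul_right _ (Finset.mem_filter.1 (hIV ha)).2
      _ = I.card * (V.card + 2 * (n * b ^ 2)) := by
          rw [Finset.sum_const, smul_eq_mul]
          ring
  calc V.card ^ 2 = V.card * V.card := by ring
    _ ≤ (2 * V'.card) * V.card := Nat.mul_le_mul_right _ hhalf
    _ = 2 * (V'.card * V.card) := by ring
    _ ≤ 2 * (I.card * (V.card + 2 * (n * b ^ 2))) := Nat.mul_le_mul_left _ hfin

end Pool.Agent.Helper29.AC
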