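import Mathlib

/-!
Erdős' box theorem: a subset of density `δ` of a product of `k` finite sets with at least
`(2/δ)^(2^(k+1))` elements each contains a box with two elements in each coordinate.
-/

open Finset

namespace Pool.Agent.Helper29.AC

/-- one step: two values of the first coordinate with many common sections -/
theorem exists_pair {X Y : Type*} [Fintype X] [DecidableEq X] [Fintype Y] [DecidableEq Y]
    (E : X → Finset Y) {δ : ℝ} (hδ : 0 < δ)
    (hE : δ * (Fintype.card X * Fintype.card Y) ≤ ∑ x, ((E x).card : ℝ))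
    (hX : 2 / δ ^ 2 ≤ Fintype.card X) (hY : 0 < Fintype.card Y) :
    ∃ x x', x ≠ x' ∧ δ ^ 2 / 2 * Fintype.card Y ≤ ((E x ∩ E x').card : ℝ) := by
  classical
  by_contra hcon
  push Not at hcon
  set m : ℝ := (Fintype.card X : ℝ) with hm
  set y : ℝ := (Fintype.card Y : ℝ) with hy
  have hypos : 0 < y := by rw [hy]; exact_mod_cast hY
  have hmpos : 0 < m := lt_of_lt_of_le (by positivity) hX
  set t : ℝ := ∑ x, ((E x).card : ℝ) with ht
  -- t ≤ m y
  have htle : t ≤ m * y := by
    rw [ht, hm, hy]
    calc ∑ x, ((E x).card : ℝ) ≤ ∑ _x : X, (Fintype.card Y : ℝ) :=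
          Finset.sum_le_sum fun x _ => by exact_mod_cast Finset.card_le_univ (E x)
      _ = Fintype.card X * Fintype.card Y := by
          rw [Finset.sum_const, Finset.card_univ, nsmul_eq_mul]
  -- Cauchy-Schwarz
  have hdeg : ∑ v : Y, ((univ.filter fun x => v ∈ E x).card : ℝ) = t := by
    rw [ht]
    have h := Finset.sum_card_bipartiteAbove_eq_sum_card_bipartiteBelow
      (s := (univ : Finset Y)) (t := (univ : Finset X)) (fun v x => v ∈ E x)
    have e1 : ∀ x, (univ.filter fun v => v ∈ E x) = E x := fun x => by ext v; simp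
    have h' : ∑ v : Y, (univ.filter fun x => v ∈ E x).card = ∑ x : X, (E x).card := by
      rw [show ∑ x : X, (E x).card = ∑ x : X, (univ.filter fun v => v ∈ E x).card from
        Finset.sum_congr rfl fun x _ => by rw [e1]]
      exact h
    exact_mod_cast h'
  have hCS : t ^ 2 ≤ y * ∑ v : Y, ((univ.filter fun x => v ∈ E x).card : ℝ) ^ 2 := by
    have := sq_sum_le_card_mul_sum_sq (s := (univ : Finset Y))
      (f := fun v => ((univ.filter fun x => v ∈ E x).card : ℝ))
    rw [hdeg, Finset.card_univ] at this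
    exact this
  have hpairs : ∑ v : Y, ((univ.filter fun x => v ∈ E x).card : ℝ) ^ 2 =
      ∑ w ∈ (univ : Finset X) ×ˢ (univ : Finset X), ((E w.1 ∩ E w.2).card : ℝ) := by
    have h := Finset.sum_card_bipartiteAbove_eq_sum_card_bipartiteBelow
      (s := (univ : Finset Y)) (t := (univ : Finset X) ×ˢ (univ : Finset X))
      (fun v w => v ∈ E w.1 ∧ v ∈ E w.2)
    have e1 : ∀ v : Y, ((((univ : Finset X) ×ˢ (univ : Finset X)).filter
        fun w => v ∈ E w.1 ∧ v ∈ E w.2).card : ℝ) =
        ((univ.filter fun x => v ∈ E x).card : ℝ) ^ 2 := by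
      intro v
      have h5 : (((univ : Finset X) ×ˢ (univ : Finset X)).filter
          fun w => v ∈ E w.1 ∧ v ∈ E w.2) =
          (univ.filter fun x => v ∈ E x) ×ˢ (univ.filter fun x => v ∈ E x) := by
        ext w
        simp only [Finset.mem_filter, Finset.mem_product, Finset.mem_univ, true_and]
      rw [h5, Finset.card_product]
      push_cast
      ring
    have e2 : ∀ w : X × X, (univ.filter fun v : Y => v ∈ E w.1 ∧ v ∈ E w.2) = E w.1 ∩ E w.2 :=
      fun w => by ext v; simp
    have h' : ∑ v : Y, ((((univ : Finset X) ×ˢ (univ : Finset X)).filter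
        fun w => v ∈ E w.1 ∧ v ∈ E w.2).card : ℝ) =
        ∑ w ∈ (univ : Finset X) ×ˢ (univ : Finset X),
          ((univ.filter fun v : Y => v ∈ E w.1 ∧ v ∈ E w.2).card : ℝ) := by
      exact_mod_cast h
    rw [← Finset.sum_congr rfl fun v _ => e1 v, h']
    exact Finset.sum_congr rfl fun w _ => by rw [e2]
  -- upper bound of the sum over pairs
  have hup : ∑ w ∈ (univ : Finset X) ×ˢ (univ : Finset X), ((E w.1 ∩ E w.2).card : ℝ) ≤
      t + m ^ 2 * (δ ^ 2 / 2 * y) - m * (δ ^ 2 / 2 * y) := by
    rw [Finset.sum_product]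
    have hrow : ∀ x : X, ∑ x' : X, ((E x ∩ E x').card : ℝ) ≤
        (E x).card + (m - 1) * (δ ^ 2 / 2 * y) := by
      intro x
      rw [← Finset.add_sum_erase univ _ (Finset.mem_univ x), Finset.inter_self]
      apply add_le_add_right
      have h1 : ∑ x' ∈ univ.erase x, ((E x ∩ E x').card : ℝ) ≤
          ∑ _x' ∈ univ.erase x, (δ ^ 2 / 2 * y) := by
        apply Finset.sum_le_sum
        intro x' hx'
        exact (hcon x x' (Finset.ne_of_mem_erase hx').symm).le
      refine h1.trans (le_of_eq ?_)
      rw [Finset.sum_const, Finset.card_erase_of_mem (Finset.mem_univ x), Finset.card_univ,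
        nsmul_eq_mul]
      have : 1 ≤ Fintype.card X := Fintype.card_pos_iff.2 ⟨x⟩
      rw [Nat.cast_sub this]
      simp [hm]
    calc ∑ x : X, ∑ x' : X, ((E x ∩ E x').card : ℝ)
        ≤ ∑ x : X, (((E x).card : ℝ) + (m - 1) * (δ ^ 2 / 2 * y)) :=
          Finset.sum_le_sum fun x _ => hrow x
      _ = t + m * ((m - 1) * (δ ^ 2 / 2 * y)) := by
          rw [Finset.sum_add_distrib, Finset.sum_const, Finset.card_univ, nsmul_eq_mul]
      _ = t + m ^ 2 * (δ ^ 2 / 2 * y) - m * (δ ^ 2 / 2 * y) := by ring
  -- conclusion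
  have h1 : t ^ 2 ≤ y * (t + m ^ 2 * (δ ^ 2 / 2 * y) - m * (δ ^ 2 / 2 * y)) := by
    refine hCS.trans ?_
    rw [hpairs]
    exact mul_le_mul_of_nonneg_left hup hypos.le
  have h2 : δ * (m * y) ≤ t := hE
  have h3 : 2 ≤ m * δ ^ 2 := by
    rw [div_le_iff₀ (by positivity)] at hX
    exact hX
  have htpos : 0 < t := lt_of_lt_of_le (by positivity) h2
  -- t^2 ≥ δ^2 m^2 y^2 and y t ≤ y (m y) ≤ (m δ^2/2) (m y^2)
  have h4 : y * t ≤ m ^ 2 * y ^ 2 * δ ^ 2 / 2 := by
    calc y * t ≤ y * (m * y) := mul_le_mul_of_nonneg_left htle hypos.le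
      _ = m * y ^ 2 := by ring
      _ ≤ m * y ^ 2 * (m * δ ^ 2 / 2) := by
          apply le_mul_of_one_le_right (by positivity)
          linarith
      _ = m ^ 2 * y ^ 2 * δ ^ 2 / 2 := by ring
  have h5 : (δ * (m * y)) ^ 2 ≤ t ^ 2 := pow_le_pow_left₀ (by positivity) h2 2
  have h6 : 0 < y * (m * (δ ^ 2 / 2 * y)) := by positivity
  nlinarith

/-- **Box theorem.** -/
theorem exists_box (k : ℕ) : ∀ (X : Fin k → Type) [∀ i, Fintype (X i)] [∀ i, DecidableEq (X i)]
    (D : Finset (∀ i, X i)) (δ : ℝ), 0 < δ → δ ≤ 1 →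
    δ * ∏ i, (Fintype.card (X i) : ℝ) ≤ D.card →
    (∀ i, (2 / δ) ^ (2 ^ (k + 1)) ≤ Fintype.card (X i)) →
    ∃ x x' : ∀ i, X i, (∀ i, x i ≠ x' i) ∧
      ∀ e : Fin k → Bool, (fun i => if e i = true then x i else x' i) ∈ D := by
  induction k with
  | zero =>
    intro X _ _ D δ hδ _ hD _
    have hDpos : (0 : ℝ) < D.card := by
      refine lt_of_lt_of_le ?_ hD
      simpa using hδ
    obtain ⟨x, hx⟩ := Finset.card_pos.1 (by exact_mod_cast hDpos : 0 < D.card)
    refine ⟨x, x, fun i => i.elim0, fun e => ?_⟩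
    have he : (fun i => if e i = true then x i else x i) = x := by
      funext i
      exact i.elim0
    rw [he]
    exact hx
  | succ k ih =>
    intro X _ _ D δ hδ hδ1 hD hX
    classical
    set E : X 0 → Finset (∀ i : Fin k, X i.succ) :=
      fun x0 => univ.filter fun y => (Fin.cons x0 y : ∀ i, X i) ∈ D with hE
    have hcardD : (D.card : ℝ) = ∑ x0, ((E x0).card : ℝ) := by
      have h1 : D.card = ∑ x0, (E x0).card := by
        rw [Finset.card_eq_sum_card_fiberwise (f := fun z : ∀ i, X i => z 0)
          (t := (univ : Finset (X 0))) (fun z _ => by simp)]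
        apply Finset.sum_congr rfl
        intro x0 _
        refine Finset.card_bij (fun z _ => fun i : Fin k => z i.succ) ?_ ?_ ?_
        · intro z hz
          rw [Finset.mem_filter] at hz
          rw [hE]
          simp only [Finset.mem_filter, Finset.mem_univ, true_and]
          have : (Fin.cons x0 (fun i : Fin k => z i.succ) : ∀ i, X i) = z := by
            rw [← hz.2]
            exact Fin.cons_self_tail z
          rw [this]
          exact hz.1
        · intro z hz z' hz' h
          rw [Finset.mem_filter] at hz hz'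
          funext i
          refine Fin.cases ?_ (fun i => ?_) i
          · rw [hz.2, hz'.2]
          · exact congrFun h i
        · intro y hy
          rw [hE] at hy
          simp only [Finset.mem_filter, Finset.mem_univ, true_and] at hy
          refine ⟨Fin.cons x0 y, ?_, ?_⟩
          · rw [Finset.mem_filter]
            exact ⟨hy, Fin.cons_zero x0 y⟩
          · funext i
            exact Fin.cons_succ x0 y i
      exact_mod_cast h1
    have hcardY : (Fintype.card (∀ i : Fin k, X i.succ) : ℝ) =
        ∏ i : Fin k, (Fintype.card (X i.succ) : ℝ) := by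
      rw [Fintype.card_pi]
      push_cast
      rfl
    have h2δ : 1 ≤ 2 / δ := by
      rw [le_div_iff₀ hδ]
      linarith
    have hXpos : ∀ i, 0 < Fintype.card (X i) := by
      intro i
      have h1 : (0 : ℝ) < Fintype.card (X i) := lt_of_lt_of_le (by positivity) (hX i)
      exact_mod_cast h1
    have hYpos : 0 < Fintype.card (∀ i : Fin k, X i.succ) := by
      rw [Fintype.card_pi]
      exact Finset.prod_pos fun i _ => hXpos _
    have hE1 : δ * (Fintype.card (X 0) * Fintype.card (∀ i : Fin k, X i.succ)) ≤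
        ∑ x0, ((E x0).card : ℝ) := by
      rw [← hcardD, hcardY]
      refine le_trans (le_of_eq ?_) hD
      rw [Fin.prod_univ_succ]
    have hX0 : 2 / δ ^ 2 ≤ Fintype.card (X 0) := by
      refine le_trans ?_ (hX 0)
      have h1 : (2 / δ) ^ 2 ≤ (2 / δ) ^ (2 ^ (k + 1 + 1)) := by
        apply pow_le_pow_right₀ h2δ
        calc 2 = 2 ^ 1 := rfl
          _ ≤ 2 ^ (k + 1 + 1) := Nat.pow_le_pow_right (by norm_num) (by omega)
      refine le_trans ?_ h1
      rw [div_pow]
      apply div_le_div_of_nonneg_right _ (by positivity)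
      norm_num
    obtain ⟨x0, x0', hne, hbig⟩ := exists_pair E hδ hE1 hX0 hYpos
    have hδ2 : 2 / (δ ^ 2 / 2) = (2 / δ) ^ 2 := by
      field_simp
    obtain ⟨y, y', hyy, hbox⟩ := ih (fun i => X i.succ) (E x0 ∩ E x0') (δ ^ 2 / 2)
      (by positivity) (by nlinarith) (by rw [← hcardY]; exact hbig) (by
        intro i
        rw [hδ2, ← pow_mul, show 2 * 2 ^ (k + 1) = 2 ^ (k + 1 + 1) by ring]
        exact hX i.succ)
    refine ⟨Fin.cons x0 y, Fin.cons x0' y', ?_, ?_⟩
    · intro i
      refine Fin.cases ?_ (fun i => ?_) i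
      · rw [Fin.cons_zero, Fin.cons_zero]
        exact hne
      · rw [Fin.cons_succ, Fin.cons_succ]
        exact hyy i
    · intro e
      have h1 := hbox fun i => e i.succ
      rw [Finset.mem_inter, hE] at h1
      simp only [Finset.mem_filter, Finset.mem_univ, true_and] at h1
      have key : ∀ z0 : X 0, (if e 0 = true then x0 else x0') = z0 →
          (fun i => if e i = true then (Fin.cons x0 y : ∀ i, X i) i
            else (Fin.cons x0' y' : ∀ i, X i) i) =
          (Fin.cons z0 (fun i : Fin k => if e i.succ = true then y i else y' i) :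
            ∀ i, X i) := by
        intro z0 hz0
        funext i
        refine Fin.cases ?_ (fun i => ?_) i
        · rw [Fin.cons_zero, Fin.cons_zero, Fin.cons_zero]
          exact hz0
        · rw [Fin.cons_succ, Fin.cons_succ, Fin.cons_succ]
      by_cases he : e 0 = true
      · rw [key x0 (by rw [if_pos he])]
        exact h1.1
      · rw [key x0' (by rw [if_neg he])]
        exact h1.2

end Pool.Agent.Helper29.AC
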