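import Pool.Agent.Helper72.AC.Circ
import Pool.Agent.Helper29.AC.Box

/-!
From a dense set of numbers on an independent set of variables to representations: `CubeStmt`.
-/

set_option autoImplicit false

open Finset

namespace Pool.Agent.Helper29.AC

open Pool.Agent.Helper72.AC

/-- equality of sums from the sums of the digits -/
theorem add_eq_of_bits (n : ℕ) : ∀ a b a' b' : ℕ, a < 2 ^ n → b < 2 ^ n → a' < 2 ^ n →
    b' < 2 ^ n → (∀ i < n, (a.testBit i).toNat + (b.testBit i).toNat =
      (a'.testBit i).toNat + (b'.testBit i).toNat) → a + b = a' + b' := by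
  induction n with
  | zero =>
    intro a b a' b' ha hb ha' hb' _
    rw [pow_zero] at ha hb ha' hb'
    omega
  | succ n ih =>
    intro a b a' b' ha hb ha' hb' h
    have h0 := h 0 (by omega)
    have h1 := ih (a / 2) (b / 2) (a' / 2) (b' / 2) (by rw [pow_succ] at ha; omega)
      (by rw [pow_succ] at hb; omega) (by rw [pow_succ] at ha'; omega)
      (by rw [pow_succ] at hb'; omega) (fun i hi => by
        have := h (i + 1) (by omega)
        rw [Nat.testBit_succ, Nat.testBit_succ, Nat.testBit_succ, Nat.testBit_succ] at this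
        exact this)
    have e : ∀ m : ℕ, (m.testBit 0).toNat = m % 2 := by
      intro m
      rw [Nat.testBit_zero]
      rcases Nat.mod_two_eq_zero_or_one m with h | h <;> simp [h]
    rw [e, e, e, e] at h0
    omega

/-- digits depending on one coordinate: the sum over opposite points is constant -/
theorem add_compl_const {n k : ℕ} {F : (Fin k → Bool) → ℕ} (hlt : ∀ e, F e < 2 ^ n)
    (hF : ∀ i < n, (∀ e e', (F e).testBit i = (F e').testBit i) ∨
      ∃ j, ∀ e e', e j = e' j → (F e).testBit i = (F e').testBit i) (e e' : Fin k → Bool) :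
    (F e + F fun j => !(e j)) = F e' + F fun j => !(e' j) := by
  refine add_eq_of_bits n _ _ _ _ (hlt _) (hlt _) (hlt _) (hlt _) fun i hi => ?_
  rcases hF i hi with h | ⟨j, h⟩
  · rw [h e e', h (fun j => !(e j)) (fun j => !(e' j))]
  · by_cases hj : e j = e' j
    · rw [h e e' hj, h (fun j => !(e j)) (fun j => !(e' j)) (by simp [hj])]
    · have h1 : e j = !(e' j) := by
        cases h1 : e j <;> cases h2 : e' j <;> simp_all
      rw [h e (fun j => !(e' j)) h1, h (fun j => !(e j)) e' (by simp [h1]), add_comm]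

theorem rep_finite (A : Set ℕ) (n : ℕ) :
    {p : ℕ × ℕ | p.1 ∈ A ∧ p.2 ∈ A ∧ p.1 + p.2 = n}.Finite := by
  refine ((Finset.range (n + 1) ×ˢ Finset.range (n + 1)).finite_toSet).subset ?_
  rintro p ⟨-, -, h⟩
  rw [Finset.mem_coe, Finset.mem_product, Finset.mem_range, Finset.mem_range]
  omega

/-- a symmetric family of elements of `A` gives representations -/
theorem card_image_le_rep {k : ℕ} {A : Set ℕ} {F : (Fin k → Bool) → ℕ} {m : ℕ}
    (hA : ∀ e, F e ∈ A) (hm : ∀ e, (F e + F fun j => !(e j)) = m) :
    (univ.image F).card ≤ rep A m := by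
  have h1 : (((univ.image F).image fun u => (u, m - u) : Finset (ℕ × ℕ)) : Set (ℕ × ℕ)) ⊆
      {p : ℕ × ℕ | p.1 ∈ A ∧ p.2 ∈ A ∧ p.1 + p.2 = m} := by
    intro p hp
    rw [Finset.mem_coe, Finset.mem_image] at hp
    obtain ⟨u, hu, rfl⟩ := hp
    obtain ⟨e, -, rfl⟩ := Finset.mem_image.1 hu
    have h2 := hm e
    refine ⟨hA e, ?_, ?_⟩
    · show m - F e ∈ A
      rw [show m - F e = F fun j => !(e j) by omega]
      exact hA _
    · show F e + (m - F e) = m
      omega
  have h2 := Set.ncard_le_ncard h1 (rep_finite A m)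
  rw [Set.ncard_coe_finset, Finset.card_image_of_injective _ (fun u v huv => by
    simp only [Prod.mk.injEq] at huv
    exact huv.1)] at h2
  exact h2

/-- the core: two functions with digits depending on one coordinate each -/
theorem core {n k : ℕ} {A : Set ℕ} {F N : (Fin k → Bool) → ℕ} (hN : ∀ e, N e < 2 ^ n)
    (hFN : ∀ e, F e ≤ N e ∧ F e ∈ A ∧ N e - F e ∈ A) (hinj : Function.Injective N)
    (hFd : ∀ i < n, (∀ e e', (F e).testBit i = (F e').testBit i) ∨
      ∃ j, ∀ e e', e j = e' j → (F e).testBit i = (F e').testBit i)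
    (hNd : ∀ i < n, (∀ e e', (N e).testBit i = (N e').testBit i) ∨
      ∃ j, ∀ e e', e j = e' j → (N e).testBit i = (N e').testBit i) :
    ∃ m < 2 ^ (n + 1), 2 ^ k ≤ rep A m ^ 2 := by
  classical
  have hFlt : ∀ e, F e < 2 ^ n := fun e => lt_of_le_of_lt (hFN e).1 (hN e)
  have hF := add_compl_const hFlt hFd
  have hNN := add_compl_const hN hNd
  set e0 : Fin k → Bool := fun _ => false with he0
  set mF := F e0 + F fun j => !(e0 j) with hmF
  set mN := N e0 + N fun j => !(e0 j) with hmN
  have hFm : ∀ e, (F e + F fun j => !(e j)) = mF := fun e => hF e e0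
  have hNm : ∀ e, (N e + N fun j => !(e j)) = mN := fun e => hNN e e0
  have hGm : ∀ e, ((N e - F e) + (N (fun j => !(e j)) - F fun j => !(e j))) = mN - mF := by
    intro e
    have h1 := hFm e
    have h2 := hNm e
    have h3 := (hFN e).1
    have h4 := (hFN fun j => !(e j)).1
    omega
  have hr1 := card_image_le_rep (fun e => (hFN e).2.1) hFm
  have hr2 := card_image_le_rep (F := fun e => N e - F e) (fun e => (hFN e).2.2) hGm
  have hmF' : mF < 2 ^ (n + 1) := by
    have h1 := hFlt e0
    have h2 := hFlt fun j => !(e0 j)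
    rw [pow_succ]
    omega
  have hmN' : mN - mF < 2 ^ (n + 1) := by
    have h1 := hN e0
    have h2 := hN fun j => !(e0 j)
    rw [pow_succ]
    omega
  -- the pair map is injective
  have hpair : 2 ^ k ≤ (univ.image F).card * (univ.image fun e => N e - F e).card := by
    rw [← Finset.card_product]
    have h1 : (univ.image fun e : Fin k → Bool => (F e, N e - F e)).card = 2 ^ k := by
      rw [Finset.card_image_of_injective, Finset.card_univ]
      · simp
      · intro e e' hee
        simp only [Prod.mk.injEq] at hee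
        apply hinj
        have h3 := (hFN e).1
        have h4 := (hFN e').1
        omega
    rw [← h1]
    apply Finset.card_le_card
    intro p hp
    obtain ⟨e, -, rfl⟩ := Finset.mem_image.1 hp
    rw [Finset.mem_product]
    exact ⟨Finset.mem_image_of_mem _ (Finset.mem_univ _),
      Finset.mem_image.2 ⟨e, Finset.mem_univ _, rfl⟩⟩
  rcases le_total (univ.image F).card (univ.image fun e => N e - F e).card with h | h
  · refine ⟨mN - mF, hmN', ?_⟩
    calc 2 ^ k ≤ (univ.image F).card * (univ.image fun e => N e - F e).card := hpair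
      _ ≤ rep A (mN - mF) * rep A (mN - mF) := Nat.mul_le_mul (h.trans hr2) hr2
      _ = rep A (mN - mF) ^ 2 := by ring
  · refine ⟨mF, hmF', ?_⟩
    calc 2 ^ k ≤ (univ.image F).card * (univ.image fun e => N e - F e).card := hpair
      _ ≤ rep A mF * rep A mF := Nat.mul_le_mul hr1 (h.trans hr1)
      _ = rep A mF ^ 2 := by ring

/-- from the mixtures of two points on disjoint blocks of independent variables -/
theorem of_mix {n : ℕ} {A : Set ℕ} {f : (Fin n → Bool) → ℕ} {I : Finset (Fin n)}
    {z : Fin n → Bool} {D : Finset (Fin n → Bool)}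
    (hf : ∀ x ∈ D, f x ≤ num x ∧ f x ∈ A ∧ num x - f x ∈ A)
    (hI : ∀ i < n, ∃ B : Finset (Fin n), (I ∩ B).card ≤ 1 ∧ ∀ x x', InC I z x → InC I z x' →
      (∀ j ∈ B, x j = x' j) → (f x).testBit i = (f x').testBit i)
    {k s : ℕ} (ψ : Fin k × Fin s → Fin n) (hψ : Function.Injective ψ) (hψI : ∀ p, ψ p ∈ I)
    (z' : Fin n → Bool) (hz' : ∀ i, i ∉ I → z' i = z i) (w w' : Fin k → Fin s → Bool)
    (hw : ∀ i, w i ≠ w' i)
    (hD : ∀ e : Fin k → Bool,
      Function.extend ψ (fun p => if e p.1 = true then w p.1 p.2 else w' p.1 p.2) z' ∈ D) :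
    ∃ m < 2 ^ (n + 1), 2 ^ k ≤ rep A m ^ 2 := by
  classical
  set y : (Fin k → Bool) → (Fin n → Bool) := fun e =>
    Function.extend ψ (fun p => if e p.1 = true then w p.1 p.2 else w' p.1 p.2) z' with hy
  have hy1 : ∀ e p, y e (ψ p) = if e p.1 = true then w p.1 p.2 else w' p.1 p.2 := fun e p => by
    rw [hy]
    exact hψ.extend_apply _ _ _
  have hy2 : ∀ e v, (¬ ∃ p, ψ p = v) → y e v = z' v := fun e v hv => by
    rw [hy]
    exact Function.extend_apply' _ _ _ hv
  have hyI : ∀ e, InC I z (y e) := by
    intro e v hv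
    rw [hy2 e v (by rintro ⟨p, rfl⟩; exact hv (hψI p)), hz' v hv]
  -- a digit depending on the variables in B depends on one block
  have hdep : ∀ B : Finset (Fin n), (I ∩ B).card ≤ 1 →
      (∀ e e', ∀ v ∈ B, y e v = y e' v) ∨ ∃ j, ∀ e e', e j = e' j → ∀ v ∈ B, y e v = y e' v := by
    intro B hB
    by_cases hp : ∃ p, ψ p ∈ B
    · obtain ⟨p, hp⟩ := hp
      right
      refine ⟨p.1, fun e e' hee v hv => ?_⟩
      by_cases hvI : v ∈ I
      · have h1 : v = ψ p := Finset.card_le_one.1 hB v (Finset.mem_inter.2 ⟨hvI, hv⟩) (ψ p)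
          (Finset.mem_inter.2 ⟨hψI p, hp⟩)
        rw [h1, hy1, hy1, hee]
      · rw [hyI e v hvI, hyI e' v hvI]
    · left
      intro e e' v hv
      have h1 : ¬ ∃ p, ψ p = v := by
        rintro ⟨p, rfl⟩
        exact hp ⟨p, hv⟩
      rw [hy2 e v h1, hy2 e' v h1]
  have hnumbit : ∀ (x : Fin n → Bool) (i : ℕ) (hi : i < n), (num x).testBit i = x ⟨i, hi⟩ := by
    intro x i hi
    unfold num
    exact Nat.testBit_ofBits_lt x i hi
  have hnuminj : Function.Injective fun e => num (y e) := by
    intro e e' hee
    have h1 : y e = y e' := by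
      funext v
      have h2 := hnumbit (y e) v v.isLt
      have h3 := hnumbit (y e') v v.isLt
      simp only at hee
      rw [hee, h3] at h2
      exact h2.symm
    funext i
    by_contra hne
    apply hw i
    funext t
    have h2 := congrFun h1 (ψ (i, t))
    rw [hy1, hy1] at h2
    simp only at h2
    cases h3 : e i <;> cases h4 : e' i <;> simp_all
  refine core (F := fun e => f (y e)) (N := fun e => num (y e))
    (fun e => Nat.ofBits_lt_two_pow (y e)) (fun e => hf _ (hD e)) hnuminj ?_ ?_
  · intro i hi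
    obtain ⟨B, hB, hfB⟩ := hI i hi
    rcases hdep B hB with h | ⟨j, h⟩
    · left
      intro e e'
      exact hfB _ _ (hyI e) (hyI e') (h e e')
    · right
      exact ⟨j, fun e e' hee => hfB _ _ (hyI e) (hyI e') (h e e' hee)⟩
  · intro i hi
    have hB : (I ∩ {(⟨i, hi⟩ : Fin n)}).card ≤ 1 :=
      (Finset.card_le_card Finset.inter_subset_right).trans (by simp)
    rcases hdep {⟨i, hi⟩} hB with h | ⟨j, h⟩
    · left
      intro e e'
      show (num (y e)).testBit i = (num (y e')).testBit i
      rw [hnumbit _ i hi, hnumbit _ i hi]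
      exact h e e' _ (Finset.mem_singleton_self _)
    · right
      refine ⟨j, fun e e' hee => ?_⟩
      show (num (y e)).testBit i = (num (y e')).testBit i
      rw [hnumbit _ i hi, hnumbit _ i hi]
      exact h e e' hee _ (Finset.mem_singleton_self _)

theorem exists_blocks {n k s : ℕ} {I : Finset (Fin n)} (h : k * s ≤ I.card) :
    ∃ ψ : Fin k × Fin s → Fin n, Function.Injective ψ ∧ ∀ p, ψ p ∈ I := by
  have h1 : Fintype.card (Fin k × Fin s) ≤ Fintype.card I := by
    simpa using h
  obtain ⟨ψ⟩ := Function.Embedding.nonempty_of_card_le h1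
  exact ⟨fun p => (ψ p : Fin n), fun p q hpq => ψ.injective (Subtype.ext hpq),
    fun p => (ψ p).2⟩

theorem cubeStmt : CubeStmt := by
  classical
  intro n A f I z D hf hI
  refine ⟨?_, ?_⟩
  · intro k s δ hks hδ hδ1 hdens hs
    obtain ⟨ψ, hψ, hψI⟩ := exists_blocks hks
    have hI'I : univ.image ψ ⊆ I := by
      intro v hv
      obtain ⟨p, -, rfl⟩ := Finset.mem_image.1 hv
      exact hψI p
    have hI'card : (univ.image ψ).card = k * s := by
      rw [Finset.card_image_of_injective _ hψ, Finset.card_univ]
      simp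
    obtain ⟨z', hz', hdens'⟩ := exists_fix D hI'I z
    have hd : δ ≤ dens D (univ.image ψ) z' := hdens.trans hdens'
    set E : Finset (∀ _ : Fin k, (Fin s → Bool)) :=
      univ.filter fun w => Function.extend ψ (fun p => w p.1 p.2) z' ∈ D with hE
    have hcard : (D.filter fun x => InC (univ.image ψ) z' x).card ≤ E.card := by
      refine Finset.card_le_card_of_injOn (fun x => fun i t => x (ψ (i, t))) ?_ ?_
      · intro x hx
        rw [Finset.mem_coe, Finset.mem_filter] at hx
        rw [Finset.mem_coe, hE, Finset.mem_filter]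
        refine ⟨Finset.mem_univ _, ?_⟩
        have h1 : Function.extend ψ (fun p => x (ψ (p.1, p.2))) z' = x := by
          funext v
          by_cases hv : ∃ p, ψ p = v
          · obtain ⟨p, rfl⟩ := hv
            rw [hψ.extend_apply]
          · rw [Function.extend_apply' _ _ _ hv]
            refine (hx.2 v ?_).symm
            intro hv'
            obtain ⟨p, -, hp⟩ := Finset.mem_image.1 hv'
            exact hv ⟨p, hp⟩
        show Function.extend ψ (fun p => x (ψ (p.1, p.2))) z' ∈ D
        rw [h1]
        exact hx.1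
      · intro x hx x' hx' hxx
        rw [Finset.mem_coe, Finset.mem_filter] at hx hx'
        funext v
        by_cases hv : v ∈ univ.image ψ
        · obtain ⟨p, -, rfl⟩ := Finset.mem_image.1 hv
          exact congrFun (congrFun hxx p.1) p.2
        · rw [hx.2 v hv, hx'.2 v hv]
    have hcardX : (Fintype.card (Fin s → Bool) : ℝ) = 2 ^ s := by
      simp
    obtain ⟨w, w', hw, hmix⟩ := exists_box k (fun _ => (Fin s → Bool)) E δ hδ hδ1 (by
        have h1 : ∏ _i : Fin k, (Fintype.card (Fin s → Bool) : ℝ) = 2 ^ (k * s) := by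
          rw [Finset.prod_const, Finset.card_univ, Fintype.card_fin, hcardX, ← pow_mul, mul_comm]
        rw [h1]
        unfold Helper72.AC.dens at hd
        rw [hI'card, le_div_iff₀ (by positivity)] at hd
        exact hd.trans (by exact_mod_cast hcard)) (fun i => by rw [hcardX]; exact hs)
    refine of_mix hf hI ψ hψ hψI z' (fun i hi => hz' i hi) w w' hw fun e => ?_
    have h1 := hmix e
    rw [hE, Finset.mem_filter] at h1
    have h2 : (fun p : Fin k × Fin s => if e p.1 = true then w p.1 p.2 else w' p.1 p.2) =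
        fun p => (if e p.1 = true then w p.1 else w' p.1) p.2 := by
      funext p
      split_ifs <;> rfl
    rw [h2]
    exact h1.2
  · intro hall
    obtain ⟨ψ, hψ, hψI⟩ := exists_blocks (n := n) (k := I.card) (s := 1) (I := I) (by omega)
    refine of_mix hf hI ψ hψ hψI z (fun _ _ => rfl) (fun _ _ => true) (fun _ _ => false)
      (fun i h => by simpa using congrFun h 0) fun e => hall _ ?_
    intro v hv
    apply Function.extend_apply'
    rintro ⟨p, rfl⟩
    exact hv (hψI p)

end Pool.Agent.Helper29.AC
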