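import Pool.Agent.Helper72.AC.Circ2
import Pool.Agent.Helper29.AC.Cube

/-!
Representations from a dense set on an independent set of variables, by the pigeonhole principle
on the sums of two points: `CubeStmt2`.
-/

set_option autoImplicit false

open Finset

namespace Pool.Agent.Helper29.AC

open Pool.Agent.Helper72.AC

/-- two pairs of points of a subcube with the same coordinate sums: a number with digits
depending on one coordinate each has the same sum over both pairs -/
theorem add_eq_of_sums {n : ℕ} {I : Finset (Fin n)} {z : Fin n → Bool}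
    {F : (Fin n → Bool) → ℕ} {x x' y y' : Fin n → Bool} (hx : InC I z x) (hx' : InC I z x')
    (hy : InC I z y) (hy' : InC I z y') (hlx : F x < 2 ^ n) (hlx' : F x' < 2 ^ n)
    (hly : F y < 2 ^ n) (hly' : F y' < 2 ^ n)
    (hF : ∀ i < n, ∃ B : Finset (Fin n), (I ∩ B).card ≤ 1 ∧ ∀ u v, InC I z u → InC I z v →
      (∀ j ∈ B, u j = v j) → (F u).testBit i = (F v).testBit i)
    (hs : ∀ j ∈ I, (x j).toNat + (x' j).toNat = (y j).toNat + (y' j).toNat) :
    F x + F x' = F y + F y' := by
  classical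
  refine add_eq_of_bits n _ _ _ _ hlx hlx' hly hly' fun i hi => ?_
  obtain ⟨B, hB, hFB⟩ := hF i hi
  have key : (∀ j ∈ B, x j = y j ∧ x' j = y' j) ∨ (∀ j ∈ B, x j = y' j ∧ x' j = y j) := by
    by_cases hp : ∃ p, p ∈ I ∩ B
    · obtain ⟨p, hp⟩ := hp
      have hone : ∀ j ∈ B, j ∈ I → j = p := fun j hj hjI =>
        Finset.card_le_one.1 hB j (Finset.mem_inter.2 ⟨hjI, hj⟩) p hp
      have hpI := (Finset.mem_inter.1 hp).1
      have h1 := hs p hpI
      have h2 : (x p = y p ∧ x' p = y' p) ∨ (x p = y' p ∧ x' p = y p) := by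
        cases e1 : x p <;> cases e2 : x' p <;> cases e3 : y p <;> cases e4 : y' p <;>
          simp [e1, e2, e3, e4] at h1 ⊢
      rcases h2 with h2 | h2
      · left
        intro j hj
        by_cases hjI : j ∈ I
        · rw [hone j hj hjI]
          exact h2
        · rw [hx j hjI, hx' j hjI, hy j hjI, hy' j hjI]
          exact ⟨rfl, rfl⟩
      · right
        intro j hj
        by_cases hjI : j ∈ I
        · rw [hone j hj hjI]
          exact h2
        · rw [hx j hjI, hx' j hjI, hy j hjI, hy' j hjI]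
          exact ⟨rfl, rfl⟩
    · left
      intro j hj
      have hjI : j ∉ I := fun h => hp ⟨j, Finset.mem_inter.2 ⟨h, hj⟩⟩
      rw [hx j hjI, hx' j hjI, hy j hjI, hy' j hjI]
      exact ⟨rfl, rfl⟩
  rcases key with h | h
  · rw [hFB x y hx hy fun j hj => (h j hj).1, hFB x' y' hx' hy' fun j hj => (h j hj).2]
  · rw [hFB x y' hx hy' fun j hj => (h j hj).1, hFB x' y hx' hy fun j hj => (h j hj).2, add_comm]

/-- a set of elements of `A` which is symmetric about `m / 2` gives representations -/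
theorem card_le_rep {A : Set ℕ} {W : Finset ℕ} {m : ℕ} (hA : ∀ u ∈ W, u ∈ A)
    (hm : ∀ u ∈ W, u ≤ m ∧ m - u ∈ A) : W.card ≤ rep A m := by
  have h1 : ((W.image fun u => (u, m - u) : Finset (ℕ × ℕ)) : Set (ℕ × ℕ)) ⊆
      {p : ℕ × ℕ | p.1 ∈ A ∧ p.2 ∈ A ∧ p.1 + p.2 = m} := by
    intro p hp
    rw [Finset.mem_coe, Finset.mem_image] at hp
    obtain ⟨u, hu, rfl⟩ := hp
    obtain ⟨h2, h3⟩ := hm u hu
    refine ⟨hA u hu, h3, ?_⟩
    show u + (m - u) = m
    omega
  have h2 := Set.ncard_le_ncard h1 (rep_finite A m)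
  rw [Set.ncard_coe_finset, Finset.card_image_of_injective _ (fun u v huv => by
    simp only [Prod.mk.injEq] at huv
    exact huv.1)] at h2
  exact h2

theorem num_testBit {n : ℕ} (x : Fin n → Bool) (i : ℕ) (hi : i < n) :
    (num x).testBit i = x ⟨i, hi⟩ := by
  unfold num
  exact Nat.testBit_ofBits_lt x i hi

theorem num_injective {n : ℕ} : Function.Injective (num : (Fin n → Bool) → ℕ) := by
  intro x y hxy
  funext v
  have h2 := num_testBit x v v.isLt
  have h3 := num_testBit y v v.isLt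
  rw [hxy, h3] at h2
  exact h2.symm

theorem cubeStmt2 : CubeStmt2 := by
  classical
  intro n A f I z D hf hI
  set T := D.filter fun x => InC I z x with hT
  rcases T.eq_empty_or_nonempty with hT0 | hTne
  · refine ⟨0, by positivity, ?_⟩
    have h1 : Helper72.AC.dens D I z = 0 := by
      unfold Helper72.AC.dens
      rw [← hT, hT0]
      simp
    rw [h1]
    simp only [ne_eq, OfNat.ofNat_ne_zero, not_false_eq_true, zero_pow, zero_mul]
    positivity
  have hTD : ∀ x ∈ T, x ∈ D := fun x hx => (Finset.mem_filter.1 hx).1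
  have hTI : ∀ x ∈ T, InC I z x := fun x hx => (Finset.mem_filter.1 hx).2
  have hlt : ∀ x ∈ T, f x < 2 ^ n := fun x hx =>
    lt_of_le_of_lt (hf x (hTD x hx)).1 (Nat.ofBits_lt_two_pow x)
  -- the classes
  let κ : (Fin n → Bool) × (Fin n → Bool) → (I → ℕ) := fun p v =>
    (p.1 v).toNat + (p.2 v).toNat
  have hmaps : ∀ p ∈ T ×ˢ T, κ p ∈ Fintype.piFinset fun _ : I => Finset.range 3 := by
    intro p _
    rw [Fintype.mem_piFinset]
    intro v
    rw [Finset.mem_range]
    show (p.1 v).toNat + (p.2 v).toNat < 3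
    have h1 := Bool.toNat_le (p.1 v)
    have h2 := Bool.toNat_le (p.2 v)
    omega
  have hcardt : (Fintype.piFinset fun _ : I => Finset.range 3).card = 3 ^ I.card := by
    rw [Fintype.card_piFinset]
    simp
  obtain ⟨c, -, hc⟩ := Finset.exists_le_card_fiber_of_nsmul_le_card_of_maps_to
    (s := T ×ˢ T) (t := Fintype.piFinset fun _ : I => Finset.range 3) (f := κ)
    (b := (T.card : ℝ) ^ 2 / 3 ^ I.card) hmaps
    (Finset.card_pos.1 (by rw [hcardt]; positivity)) (by
      rw [hcardt, nsmul_eq_mul, Finset.card_product]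
      push_cast
      rw [mul_div_cancel₀ _ (by positivity)]
      exact le_of_eq (by ring))
  set Fib := (T ×ˢ T).filter fun p => κ p = c with hFib
  have hb : Helper72.AC.dens D I z ^ 2 * (4 / 3) ^ I.card ≤ (Fib.card : ℝ) := by
    refine le_trans (le_of_eq ?_) hc
    unfold Helper72.AC.dens
    rw [← hT, div_pow, div_pow, ← pow_mul, mul_comm I.card 2, pow_mul]
    norm_num
    field_simp
  have hTpos : (0 : ℝ) < (T.card : ℝ) ^ 2 / 3 ^ I.card := by
    have : 0 < T.card := Finset.card_pos.2 hTne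
    positivity
  obtain ⟨p0, hp0⟩ : Fib.Nonempty := by
    rw [← Finset.card_pos]
    have : (0 : ℝ) < Fib.card := lt_of_lt_of_le hTpos hc
    exact_mod_cast this
  rw [hFib, Finset.mem_filter, Finset.mem_product] at hp0
  obtain ⟨⟨h01, h02⟩, h0c⟩ := hp0
  set m1 := f p0.1 + f p0.2 with hm1
  set m2 := num p0.1 + num p0.2 with hm2
  have hsum : ∀ p ∈ Fib, p.1 ∈ T ∧ p.2 ∈ T ∧
      ∀ j ∈ I, (p.1 j).toNat + (p.2 j).toNat = (p0.1 j).toNat + (p0.2 j).toNat := by
    intro p hp
    rw [hFib, Finset.mem_filter, Finset.mem_product] at hp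
    refine ⟨hp.1.1, hp.1.2, fun j hj => ?_⟩
    exact congrFun (hp.2.trans h0c.symm) ⟨j, hj⟩
  have hfm : ∀ p ∈ Fib, f p.1 + f p.2 = m1 := by
    intro p hp
    obtain ⟨h1, h2, h3⟩ := hsum p hp
    exact add_eq_of_sums (hTI _ h1) (hTI _ h2) (hTI _ h01) (hTI _ h02) (hlt _ h1) (hlt _ h2)
      (hlt _ h01) (hlt _ h02) hI h3
  have hnm : ∀ p ∈ Fib, num p.1 + num p.2 = m2 := by
    intro p hp
    obtain ⟨h1, h2, h3⟩ := hsum p hp
    refine add_eq_of_sums (F := num) (hTI _ h1) (hTI _ h2) (hTI _ h01) (hTI _ h02)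
      (Nat.ofBits_lt_two_pow _) (Nat.ofBits_lt_two_pow _) (Nat.ofBits_lt_two_pow _)
      (Nat.ofBits_lt_two_pow _) ?_ h3
    intro i hi
    refine ⟨{⟨i, hi⟩}, (Finset.card_le_card Finset.inter_subset_right).trans (by simp), ?_⟩
    intro u v _ _ huv
    rw [num_testBit _ i hi, num_testBit _ i hi]
    exact huv _ (Finset.mem_singleton_self _)
  -- the first components
  set U := Fib.image Prod.fst with hU
  have hUcard : U.card = Fib.card := by
    rw [hU]
    apply Finset.card_image_of_injOn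
    intro p hp q hq hpq
    have h1 := hsum p (Finset.mem_coe.1 hp)
    have h2 := hsum q (Finset.mem_coe.1 hq)
    refine Prod.ext hpq ?_
    funext j
    by_cases hj : j ∈ I
    · have h3 := h1.2.2 j hj
      have h4 := h2.2.2 j hj
      have h5 : p.1 = q.1 := hpq
      rw [h5] at h3
      have h6 : (p.2 j).toNat = (q.2 j).toNat := by omega
      cases e1 : p.2 j <;> cases e2 : q.2 j <;> simp [e1, e2] at h6 ⊢
    · rw [hTI _ h1.2.1 j hj, hTI _ h2.2.1 j hj]
  have hUp : ∀ x ∈ U, ∃ x', x ∈ T ∧ x' ∈ T ∧ f x + f x' = m1 ∧ num x + num x' = m2 := by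
    intro x hx
    obtain ⟨p, hp, rfl⟩ := Finset.mem_image.1 hx
    exact ⟨p.2, (hsum p hp).1, (hsum p hp).2.1, hfm p hp, hnm p hp⟩
  have hr1 : (U.image f).card ≤ rep A m1 := by
    apply card_le_rep
    · intro u hu
      obtain ⟨x, hx, rfl⟩ := Finset.mem_image.1 hu
      obtain ⟨x', h1, -⟩ := hUp x hx
      exact (hf x (hTD x h1)).2.1
    · intro u hu
      obtain ⟨x, hx, rfl⟩ := Finset.mem_image.1 hu
      obtain ⟨x', h1, h2, h3, -⟩ := hUp x hx
      refine ⟨by omega, ?_⟩
      rw [show m1 - f x = f x' by omega]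
      exact (hf x' (hTD x' h2)).2.1
  have hr2 : (U.image fun x => num x - f x).card ≤ rep A (m2 - m1) := by
    apply card_le_rep
    · intro u hu
      obtain ⟨x, hx, rfl⟩ := Finset.mem_image.1 hu
      obtain ⟨x', h1, -⟩ := hUp x hx
      exact (hf x (hTD x h1)).2.2
    · intro u hu
      obtain ⟨x, hx, rfl⟩ := Finset.mem_image.1 hu
      obtain ⟨x', h1, h2, h3, h4⟩ := hUp x hx
      have h5 := (hf x (hTD x h1)).1
      have h6 := (hf x' (hTD x' h2)).1
      refine ⟨by omega, ?_⟩
      rw [show m2 - m1 - (num x - f x) = num x' - f x' by omega]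
      exact (hf x' (hTD x' h2)).2.2
  have hprod : U.card ≤ (U.image f).card * (U.image fun x => num x - f x).card := by
    rw [← Finset.card_product]
    have h1 : (U.image fun x => (f x, num x - f x)).card = U.card := by
      apply Finset.card_image_of_injOn
      intro x hx y hy hxy
      simp only [Prod.mk.injEq] at hxy
      apply num_injective
      obtain ⟨x', h1, -⟩ := hUp x (Finset.mem_coe.1 hx)
      obtain ⟨y', h2, -⟩ := hUp y (Finset.mem_coe.1 hy)
      have h3 := (hf x (hTD x h1)).1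
      have h4 := (hf y (hTD y h2)).1
      omega
    rw [← h1]
    apply Finset.card_le_card
    intro p hp
    obtain ⟨x, hx, rfl⟩ := Finset.mem_image.1 hp
    rw [Finset.mem_product]
    exact ⟨Finset.mem_image_of_mem _ hx, Finset.mem_image.2 ⟨x, hx, rfl⟩⟩
  have hm1lt : m1 < 2 ^ (n + 1) := by
    have h1 := hlt _ h01
    have h2 := hlt _ h02
    rw [pow_succ]
    omega
  have hm2lt : m2 < 2 ^ (n + 1) := by
    have h1 : num p0.1 < 2 ^ n := Nat.ofBits_lt_two_pow p0.1
    have h2 : num p0.2 < 2 ^ n := Nat.ofBits_lt_two_pow p0.2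
    rw [pow_succ]
    omega
  rw [← hUcard] at hb
  rcases le_total (U.image f).card (U.image fun x => num x - f x).card with h | h
  · refine ⟨m2 - m1, by omega, hb.trans ?_⟩
    have : U.card ≤ rep A (m2 - m1) ^ 2 := by
      calc U.card ≤ (U.image f).card * (U.image fun x => num x - f x).card := hprod
        _ ≤ rep A (m2 - m1) * rep A (m2 - m1) := Nat.mul_le_mul (h.trans hr2) hr2
        _ = rep A (m2 - m1) ^ 2 := by ring
    exact_mod_cast this
  · refine ⟨m1, hm1lt, hb.trans ?_⟩
    have : U.card ≤ rep A m1 ^ 2 := by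
      calc U.card ≤ (U.image f).card * (U.image fun x => num x - f x).card := hprod
        _ ≤ rep A m1 * rep A m1 := Nat.mul_le_mul hr1 (h.trans hr1)
        _ = rep A m1 ^ 2 := by ring
    exact_mod_cast this

end Pool.Agent.Helper29.AC
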